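import Mathlib

/-!
# Smooth cutoffs and a separation lemma in the plane

`separate`: if `K` is compact, `K = A ⊔ B`, `G` is a bounded open set disjoint from `K` such that
`G ∪ K` has open complement `R`, and every bounded open set whose frontier lies in a compact subset
of `G` is contained in `G`, then `K ∪ G` is the union of two disjoint relatively closed sets, one
containing `A`, the other one containing `B`.
-/

set_option autoImplicit false

open Set Filter Topology Metric
open scoped ContDiff Manifold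

namespace Pool.Agent.X105.EC

theorem exists_cutoff {A B : Set ℂ} (hA : IsCompact A) (hB : IsClosed B) (hAB : Disjoint A B) :
    ∃ φ : ℂ → ℝ, ContDiff ℝ ∞ φ ∧ HasCompactSupport φ ∧ (∀ z ∈ A, ∀ᶠ w in 𝓝 z, φ w = 1) ∧
      (∀ z ∈ B, ∀ᶠ w in 𝓝 z, φ w = 0) := by
  obtain ⟨R, hR⟩ := hA.isBounded.subset_ball (0 : ℂ)
  have hB' : IsClosed (B ∪ (ball (0 : ℂ) R)ᶜ) := hB.union isOpen_ball.isClosed_compl
  have hd : Disjoint (B ∪ (ball (0 : ℂ) R)ᶜ) A := by
    rw [Set.disjoint_left]
    rintro z (hz | hz) hzA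
    · exact (Set.disjoint_left.1 hAB hzA) hz
    · exact hz (hR hzA)
  obtain ⟨f, hf0, hf1, -⟩ := exists_contMDiffMap_zero_one_nhds_of_isClosed (n := ⊤)
    (𝓘(ℝ, ℂ)) hB' hA.isClosed hd
  rw [eventually_nhdsSet_iff_forall] at hf0 hf1
  refine ⟨f, f.contMDiff.contDiff, ?_, hf1, fun z hz => hf0 z (Or.inl hz)⟩
  refine HasCompactSupport.intro (isCompact_closedBall (0 : ℂ) R) fun z hz => ?_
  have : z ∈ B ∪ (ball (0 : ℂ) R)ᶜ := Or.inr fun h => hz (ball_subset_closedBall h)
  exact (hf0 z this).self_of_nhds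

theorem exterior_preconnected (R : ℝ) : IsPreconnected {z : ℂ | R < ‖z‖} := by
  by_cases hR : R < 0
  · have : {z : ℂ | R < ‖z‖} = univ := eq_univ_of_forall fun z => lt_of_lt_of_le hR (norm_nonneg z)
    rw [this]
    exact isPreconnected_univ
  push Not at hR
  have : {z : ℂ | R < ‖z‖} = (fun p : ℝ × ℝ => (p.1 : ℂ) * Complex.exp (p.2 * Complex.I)) ''
      (Ioi R ×ˢ univ) := by
    ext z
    constructor
    · intro hz
      exact ⟨(‖z‖, Complex.arg z), ⟨hz, mem_univ _⟩, Complex.norm_mul_exp_arg_mul_I z⟩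
    · rintro ⟨⟨r, t⟩, ⟨hr, -⟩, rfl⟩
      show R < ‖(r : ℂ) * Complex.exp (t * Complex.I)‖
      rw [norm_mul, Complex.norm_exp_ofReal_mul_I, mul_one, Complex.norm_real,
        Real.norm_of_nonneg (hR.trans (le_of_lt hr))]
      exact hr
  rw [this]
  exact (isPreconnected_Ioi.prod isPreconnected_univ).image _ (by fun_prop)

/-- **Separation lemma.** -/
theorem separate {A B G : Set ℂ} (hA : IsCompact A) (hB : IsCompact B) (hAB : Disjoint A B)
    (hG : IsOpen G) (hGK : Disjoint G (A ∪ B)) (hcl : IsClosed (G ∪ (A ∪ B)))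
    (hull : ∀ L : Set ℂ, IsCompact L → L ⊆ G → ∀ U : Set ℂ, IsOpen U → Bornology.IsBounded U →
      frontier U ⊆ L → U ⊆ G) :
    ∃ f : ℂ → ℝ, Continuous f ∧ (∀ z ∈ A, f z = 1) ∧ (∀ z ∈ B, f z = 0) ∧
      ∀ z ∈ G ∪ (A ∪ B), ∀ᶠ w in 𝓝 z, f w = f z := by
  obtain ⟨φ, hφ, hφc, hφA, hφB⟩ := exists_cutoff hA hB.isClosed hAB
  -- the derivative of `φ`
  have hdφ : ContDiff ℝ ∞ (fderiv ℝ φ) := hφ.fderiv_right (by simp)
  set L : Set ℂ := tsupport (fderiv ℝ φ) ∩ G with hL
  have hloc : ∀ z ∈ A ∪ B, ∀ᶠ w in 𝓝 z, fderiv ℝ φ w = 0 := by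
    rintro z (hz | hz)
    · filter_upwards [(hφA z hz).eventually_nhds] with w hw
      have : φ =ᶠ[𝓝 w] fun _ => (1 : ℝ) := hw
      rw [this.fderiv_eq]
      exact fderiv_const_apply _
    · filter_upwards [(hφB z hz).eventually_nhds] with w hw
      have : φ =ᶠ[𝓝 w] fun _ => (0 : ℝ) := hw
      rw [this.fderiv_eq]
      exact fderiv_const_apply _
  have hnot : ∀ z ∈ A ∪ B, z ∉ tsupport (fderiv ℝ φ) := by
    intro z hz
    rw [notMem_tsupport_iff_eventuallyEq]
    exact hloc z hz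
  have hLeq : L = tsupport (fderiv ℝ φ) ∩ (G ∪ (A ∪ B)) := by
    ext z
    constructor
    · rintro ⟨h1, h2⟩
      exact ⟨h1, Or.inl h2⟩
    · rintro ⟨h1, h2 | h2⟩
      · exact ⟨h1, h2⟩
      · exact absurd h1 (hnot z h2)
  have hLc : IsCompact L := by
    rw [hLeq]
    exact (hφc.fderiv ℝ).isCompact.inter_right hcl
  have hLG : L ⊆ G := inter_subset_right
  -- the closed form
  classical
  set om : ℂ → (ℂ →L[ℝ] ℝ) := fun z => if z ∈ G then fderiv ℝ φ z else 0 with hom
  have homG : ∀ z ∈ G, om =ᶠ[𝓝 z] fderiv ℝ φ := by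
    intro z hz
    filter_upwards [hG.mem_nhds hz] with w hw
    simp [hom, hw]
  have hom0 : ∀ z ∉ L, om =ᶠ[𝓝 z] fun _ => 0 := by
    intro z hz
    filter_upwards [hLc.isClosed.isOpen_compl.mem_nhds hz] with w hw
    by_cases hwG : w ∈ G
    · have : w ∉ tsupport (fderiv ℝ φ) := fun h => hw ⟨h, hwG⟩
      simp [hom, image_eq_zero_of_notMem_tsupport this]
    · simp [hom, hwG]
  have homd : Differentiable ℝ om := by
    intro z
    by_cases hz : z ∈ L
    · exact ((hdφ.differentiable (by simp)) z).congr_of_eventuallyEq (homG z (hLG hz))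
    · exact (differentiableAt_const (0 : ℂ →L[ℝ] ℝ)).congr_of_eventuallyEq (hom0 z hz)
  have homs : ∀ a ∈ (univ : Set ℂ), ∀ x y, fderiv ℝ om a x y = fderiv ℝ om a y x := by
    intro z _ x y
    by_cases hz : z ∈ L
    · rw [(homG z (hLG hz)).fderiv_eq]
      have h2 : IsSymmSndFDerivAt ℝ φ z :=
        (hφ.contDiffAt).isSymmSndFDerivAt (by
          rw [minSmoothness_of_isRCLikeNormedField]; exact ENat.LEInfty.out)
      exact h2 x y
    · rw [(hom0 z hz).fderiv_eq]
      simp
  obtain ⟨v0, hv0⟩ := Convex.exists_forall_hasFDerivAt_of_fderiv_symmetric (𝕜 := ℝ)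
    (convex_univ (E := ℂ) (𝕜 := ℝ)) isOpen_univ homd.differentiableOn homs
  have hv : ∀ z, HasFDerivAt v0 (om z) z := fun z => hv0 z (mem_univ z)
  have hvd : Differentiable ℝ v0 := fun z => (hv z).differentiableAt
  have hvc : ∀ W : Set ℂ, IsOpen W → IsPreconnected W → W ⊆ Lᶜ → ∀ x ∈ W, ∀ y ∈ W, v0 x = v0 y := by
    intro W hWo hWp hWL x hx y hy
    refine hWo.is_const_of_fderiv_eq_zero (𝕜 := ℝ) hWp hvd.differentiableOn ?_ hx hy
    intro z hz
    rw [(hv z).fderiv]
    exact (hom0 z (hWL hz)).self_of_nhds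
  -- the exterior
  obtain ⟨R, hR⟩ := hLc.isBounded.subset_closedBall (0 : ℂ)
  have hext := exterior_preconnected R
  have hextL : {z : ℂ | R < ‖z‖} ⊆ Lᶜ := by
    intro z hz hzL
    have := hR hzL
    rw [mem_closedBall_zero_iff] at this
    exact absurd hz (not_lt.2 this)
  have hexto : IsOpen {z : ℂ | R < ‖z‖} := isOpen_lt continuous_const continuous_norm
  set p : ℂ := ((|R| + 1 : ℝ) : ℂ) with hp
  have hpe : p ∈ {z : ℂ | R < ‖z‖} := by
    show R < ‖p‖
    rw [hp, Complex.norm_real, Real.norm_of_nonneg (by positivity)]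
    linarith [le_abs_self R]
  -- `v0 = v0 p` on `A ∪ B`
  have hvK : ∀ z ∈ A ∪ B, v0 z = v0 p := by
    intro z hz
    by_contra hne
    have hzL : z ∈ Lᶜ := fun h => hnot z hz h.1
    have hLo : IsOpen Lᶜ := hLc.isClosed.isOpen_compl
    set W := connectedComponentIn Lᶜ z with hW
    have hWo : IsOpen W := hLo.connectedComponentIn
    have hzW : z ∈ W := mem_connectedComponentIn hzL
    have hWL : W ⊆ Lᶜ := connectedComponentIn_subset _ _
    have hWb : Bornology.IsBounded W := by
      refine isBounded_closedBall.subset (fun w hw => ?_ : W ⊆ closedBall (0 : ℂ) R)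
      by_contra hw'
      have hwe : w ∈ {z : ℂ | R < ‖z‖} := by
        show R < ‖w‖
        rw [mem_closedBall_zero_iff] at hw'
        exact not_le.1 hw'
      apply hne
      rw [hvc W hWo isPreconnected_connectedComponentIn hWL z hzW w hw,
        hvc _ hexto hext hextL w hwe p hpe]
    have hWf : frontier W ⊆ L := by
      intro y hy
      by_contra hyL
      have hyL' : y ∈ Lᶜ := hyL
      have h1 : connectedComponentIn Lᶜ y ∈ 𝓝 y :=
        hLo.connectedComponentIn.mem_nhds (mem_connectedComponentIn hyL')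
      obtain ⟨w, hw1, hw2⟩ := mem_closure_iff_nhds.1 hy.1 _ h1
      have e1 : connectedComponentIn Lᶜ y = connectedComponentIn Lᶜ w := connectedComponentIn_eq hw1
      have e2 : W = connectedComponentIn Lᶜ w := connectedComponentIn_eq hw2
      have : y ∈ W := by rw [e2, ← e1]; exact mem_connectedComponentIn hyL'
      exact hy.2 (by rw [hWo.interior_eq]; exact this)
    have := hull L hLc hLG W hWo hWb hWf hzW
    exact Set.disjoint_left.1 hGK this hz
  refine ⟨fun z => φ z - (v0 z - v0 p), ?_, ?_, ?_, ?_⟩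
  · exact hφ.continuous.sub (hvd.continuous.sub continuous_const)
  · intro z hz
    show φ z - (v0 z - v0 p) = 1
    rw [(hφA z hz).self_of_nhds, hvK z (Or.inl hz)]
    ring
  · intro z hz
    show φ z - (v0 z - v0 p) = 0
    rw [(hφB z hz).self_of_nhds, hvK z (Or.inr hz)]
    ring
  · intro z hz
    have hder : ∀ w, HasFDerivAt (fun z => φ z - (v0 z - v0 p)) (fderiv ℝ φ w - om w) w := by
      intro w
      exact ((hφ.differentiable (by simp)) w).hasFDerivAt.sub ((hv w).sub_const (v0 p))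
    have hzero : ∀ᶠ w in 𝓝 z, fderiv ℝ φ w - om w = 0 := by
      rcases hz with hz | hz
      · filter_upwards [homG z hz] with w hw
        rw [hw, sub_self]
      · filter_upwards [hloc z hz, hom0 z (fun h => hnot z hz h.1)] with w h1 h2
        rw [h1, h2, sub_self]
    obtain ⟨ε, hε, hb⟩ := Metric.eventually_nhds_iff_ball.1 hzero
    filter_upwards [ball_mem_nhds z hε] with w hw
    refine isOpen_ball.is_const_of_fderiv_eq_zero (𝕜 := ℝ) (convex_ball z ε).isPreconnected
      (fun x _ => (hder x).differentiableAt.differentiableWithinAt) ?_ hw (mem_ball_self hε)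
    intro x hx
    rw [(hder x).fderiv]
    exact hb x hx

end Pool.Agent.X105.EC
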