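import Pool.Agent.X105.EC.Hull

/-!
# The essential spectrum is connected
-/

set_option autoImplicit false
set_option linter.unusedSectionVars false
set_option linter.style.haveILetI false

open Set Filter Topology Metric Polynomial

namespace Pool.Agent.X105.EC

variable {H : Type*} [NormedAddCommGroup H] [InnerProductSpace ℂ H] [CompleteSpace H]

/-- The essential spectrum: the set of `z` such that `T - z` is not invertible modulo the compact
operators. -/
def essSpec (T : H →L[ℂ] H) : Set ℂ :=
  {z | ¬ ∃ B : H →L[ℂ] H,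
    IsCompactOperator (B * (T - z • (1 : H →L[ℂ] H)) - 1 : H →L[ℂ] H) ∧
    IsCompactOperator ((T - z • (1 : H →L[ℂ] H)) * B - 1 : H →L[ℂ] H)}

theorem codim_of_notMem {T : H →L[ℂ] H} {z : ℂ} (hz : z ∉ essSpec T) :
    FiniteDimensional ℂ (H ⧸ (sh T z).range) := by
  simp only [essSpec, mem_ofPred_eq, not_not] at hz
  obtain ⟨B, -, hB⟩ := hz
  obtain ⟨-, S, hS⟩ := Pool.Agent.Helper280.GI.compact_fredholm hB
  have e1 : (1 : H →L[ℂ] H) + ((T - z • (1 : H →L[ℂ] H)) * B - 1) = sh T z * B := by
    unfold sh
    abel
  rw [e1] at hS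
  -- `range (sh T z) + range (F)` is everything
  set F := sh T z * B * S - 1 with hF
  haveI : FiniteDimensional ℂ (LinearMap.range (F : H →ₗ[ℂ] H)) := hS
  set V : Submodule ℂ H := LinearMap.range (F : H →ₗ[ℂ] H) with hV
  have hsurj : Function.Surjective ((sh T z).range.mkQ.comp V.subtype) := by
    intro y
    obtain ⟨y, rfl⟩ := Submodule.Quotient.mk_surjective _ y
    have hy : y = sh T z (B (S y)) - F y := by
      rw [hF]
      change y = sh T z (B (S y)) - (sh T z (B (S y)) - y)
      abel
    refine ⟨-⟨F y, ⟨y, rfl⟩⟩, ?_⟩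
    rw [map_neg, LinearMap.comp_apply, Submodule.subtype_apply, Submodule.mkQ_apply,
      ← Submodule.Quotient.mk_neg, Submodule.Quotient.eq]
    refine ⟨-(B (S y)), ?_⟩
    change sh T z (-(B (S y))) = - F y - y
    rw [map_neg]
    nth_rewrite 3 [hy]
    abel
  exact Module.Finite.of_surjective _ hsurj

theorem notMem_of_codim {T : H →L[ℂ] H} {z : ℂ} (hinj : Function.Injective (sh T z))
    [FiniteDimensional ℂ (H ⧸ (sh T z).range)] : z ∉ essSpec T := by
  simp only [essSpec, mem_ofPred_eq, not_not]
  obtain ⟨W, hW⟩ := Submodule.exists_isCompl (sh T z).range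
  haveI : FiniteDimensional ℂ W :=
    LinearEquiv.finiteDimensional (Submodule.quotientEquivOfIsCompl _ _ hW)
  let e := ContinuousLinearMap.coprodSubtypeLEquivOfIsCompl (sh T z) hW (LinearMap.ker_eq_bot.2 hinj)
  have he : ∀ p, e p = sh T z p.1 + (p.2 : H) := fun p => rfl
  let B : H →L[ℂ] H := (ContinuousLinearMap.fst ℂ H W).comp (e.symm : H →L[ℂ] H × W)
  have h1 : B * sh T z = 1 := by
    ext x
    change (e.symm (sh T z x)).1 = x
    have : e (x, 0) = sh T z x := by rw [he]; simp
    rw [← this, ContinuousLinearEquiv.symm_apply_apply]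
  have h2 : ∀ y, (sh T z * B - 1) y = -(((e.symm y).2 : W) : H) := by
    intro y
    change sh T z (e.symm y).1 - y = _
    have : e (e.symm y) = y := ContinuousLinearEquiv.apply_symm_apply _ _
    rw [he] at this
    nth_rewrite 2 [← this]
    abel
  refine ⟨B, ?_, ?_⟩
  · change IsCompactOperator (B * sh T z - 1 : H →L[ℂ] H)
    rw [h1, sub_self]
    exact isCompactOperator_zero
  · change IsCompactOperator (sh T z * B - 1 : H →L[ℂ] H)
    have h3 : (sh T z * B - 1 : H →L[ℂ] H) =
        -(W.subtypeL.comp ((ContinuousLinearMap.snd ℂ H W).comp (e.symm : H →L[ℂ] H × W))) := by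
      ext y
      rw [h2 y]
      rfl
    rw [h3]
    refine IsCompactOperator.neg ?_
    have h4 : IsCompactOperator (W.subtypeL : W →L[ℂ] H) :=
      isCompactOperator_of_locallyCompactSpace_rng _
    exact h4.comp_clm ((ContinuousLinearMap.snd ℂ H W).comp (e.symm : H →L[ℂ] H × W))

/-- **Main theorem.** -/
theorem main {T : H →L[ℂ] H} (hT : IsQ T) (hinf : ¬ FiniteDimensional ℂ H) :
    IsConnected (essSpec T) := by
  have hne : ∃ f : H, f ≠ 0 := by
    by_contra hcon
    push Not at hcon
    apply hinf
    haveI : Subsingleton H := ⟨fun x y => by rw [hcon x, hcon y]⟩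
    infer_instance
  obtain ⟨f, hf⟩ := hne
  set G := GG T f with hG
  have hGo : IsOpen G := GG_open T f
  have hinj : ∀ z, Function.Injective (sh T z) := fun z x y h => sh_inj hT hinf z x y h
  have hGess : ∀ z ∈ G, z ∉ essSpec T := by
    intro z hz
    haveI := codim_of_GG hT hf hz
    exact notMem_of_codim (hinj z)
  have hGspec : ∀ z ∈ G, z ∈ spectrum ℂ T := by
    intro z hz
    rw [mem_spectrum_iff]
    exact fun h => not_GG_of_rs hT hf h hz
  have hspec : spectrum ℂ T = G ∪ essSpec T := by
    ext z
    constructor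
    · intro hz
      by_cases he : z ∈ essSpec T
      · exact Or.inr he
      · left
        haveI := codim_of_notMem he
        exact GG_of_codim hT hinf hf ((mem_spectrum_iff T z).1 hz)
    · rintro (hz | hz)
      · exact hGspec z hz
      · by_contra hcon
        have hz' : z ∈ rs T := by
          by_contra h
          exact hcon ((mem_spectrum_iff T z).2 h)
        apply hz
        refine ⟨rv T z, ?_, ?_⟩
        · change IsCompactOperator (rv T z * sh T z - 1 : H →L[ℂ] H)
          rw [rv_sh hz', sub_self]
          exact isCompactOperator_zero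
        · change IsCompactOperator (sh T z * rv T z - 1 : H →L[ℂ] H)
          rw [sh_rv hz', sub_self]
          exact isCompactOperator_zero
  have hcompact : IsCompact (spectrum ℂ T) := spectrum.isCompact T
  have hesseq : essSpec T = spectrum ℂ T ∩ Gᶜ := by
    ext z
    rw [hspec]
    constructor
    · intro h
      exact ⟨Or.inr h, fun hz => hGess z hz h⟩
    · rintro ⟨h | h, h'⟩
      · exact absurd h h'
      · exact h
  have hessc : IsCompact (essSpec T) := by
    rw [hesseq]
    exact hcompact.inter_right hGo.isClosed_compl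
  haveI : Nontrivial H := ⟨⟨f, 0, hf⟩⟩
  constructor
  · -- nonempty
    rw [nonempty_iff_ne_empty]
    intro hemp
    rw [hemp, union_empty] at hspec
    have hcl : IsClopen (spectrum ℂ T) := ⟨hcompact.isClosed, by rw [hspec]; exact hGo⟩
    rcases isClopen_iff.1 hcl with h | h
    · have := spectrum.nonempty T
      rw [h] at this
      exact not_nonempty_empty this
    · rw [h] at hcompact
      exact noncompact_univ ℂ hcompact
  · rw [isPreconnected_closed_iff]
    intro t t' ht ht' hsub ⟨a, ha, hat⟩ ⟨b, hb, hbt⟩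
    by_contra hcon
    rw [not_nonempty_iff_eq_empty] at hcon
    set A := essSpec T ∩ t with hA
    set B := essSpec T ∩ t' with hB
    have hAc : IsCompact A := hessc.inter_right ht
    have hBc : IsCompact B := hessc.inter_right ht'
    have hABd : Disjoint A B := by
      rw [Set.disjoint_left]
      rintro z ⟨h1, h2⟩ ⟨-, h3⟩
      have : z ∈ essSpec T ∩ (t ∩ t') := ⟨h1, h2, h3⟩
      rw [hcon] at this
      exact this
    have hABe : A ∪ B = essSpec T := by
      rw [hA, hB, ← inter_union_distrib_left]
      exact inter_eq_left.2 hsub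
    obtain ⟨φ, hφ, hφA, hφB, hφl⟩ := separate hAc hBc hABd hGo
      (by
        rw [hABe, Set.disjoint_left]
        exact hGess)
      (by rw [hABe, ← hspec]; exact hcompact.isClosed)
      (fun L hL hLG U _ hUb hUf => hull hT hinf hL hLG hUb hUf)
    rw [hABe, ← hspec] at hφl
    -- split the spectrum
    have hA' : IsClosed (spectrum ℂ T ∩ {z | φ z = 1}) :=
      hcompact.isClosed.inter (isClosed_eq hφ continuous_const)
    have hB' : IsClosed (spectrum ℂ T ∩ {z | φ z ≠ 1}) := by
      rw [← isOpen_compl_iff, isOpen_iff_mem_nhds]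
      intro z hz
      by_cases hzs : z ∈ spectrum ℂ T
      · have hz1 : φ z = 1 := by
          by_contra h
          exact hz ⟨hzs, h⟩
        filter_upwards [hφl z hzs] with w hw hw'
        exact hw'.2 (hw.trans hz1)
      · filter_upwards [hcompact.isClosed.isOpen_compl.mem_nhds hzs] with w hw hw'
        exact hw hw'.1
    have hdis : Disjoint (spectrum ℂ T ∩ {z | φ z = 1}) (spectrum ℂ T ∩ {z | φ z ≠ 1}) := by
      rw [Set.disjoint_left]
      rintro z ⟨-, h1⟩ ⟨-, h2⟩
      exact h2 h1
    have hun : spectrum ℂ T = (spectrum ℂ T ∩ {z | φ z = 1}) ∪ (spectrum ℂ T ∩ {z | φ z ≠ 1}) := by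
      rw [← inter_union_distrib_left]
      symm
      refine inter_eq_left.2 fun z _ => ?_
      by_cases h : φ z = 1
      · exact Or.inl h
      · exact Or.inr h
    have hess : ∀ z ∈ essSpec T, z ∈ spectrum ℂ T := fun z hz => by rw [hspec]; exact Or.inr hz
    rcases spectrum_preconnected hT hinf hA' hB' hdis hun with h | h
    · have : a ∈ spectrum ℂ T ∩ {z | φ z = 1} := ⟨hess a ha, hφA a ⟨ha, hat⟩⟩
      rw [h] at this
      exact this
    · have : b ∈ spectrum ℂ T ∩ {z | φ z ≠ 1} := ⟨hess b hb, by
        show φ b ≠ 1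
        rw [hφB b ⟨hb, hbt⟩]
        exact zero_ne_one⟩
      rw [h] at this
      exact this

end Pool.Agent.X105.EC
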