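import Pool.Agent.X105.EC.Riesz
import Pool.Agent.Helper280.GI.JAtkinson

/-!
# The holes of the essential spectrum: hull argument
-/

set_option autoImplicit false
set_option linter.unusedSectionVars false
set_option linter.style.haveILetI false

open Set Filter Topology Metric Polynomial

namespace Pool.Agent.X105.EC

variable {H : Type*} [NormedAddCommGroup H] [InnerProductSpace ℂ H] [CompleteSpace H]

/-- `p ↦ p(T) f` -/
noncomputable def Lp (T : H →L[ℂ] H) (f : H) : ℂ[X] →ₗ[ℂ] H where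
  toFun p := aeval T p f
  map_add' p q := by rw [map_add]; rfl
  map_smul' c p := by rw [map_smul]; rfl

/-- `{p(T) f}` -/
noncomputable def PP (T : H →L[ℂ] H) (f : H) : Submodule ℂ H := LinearMap.range (Lp T f)

theorem PP_self (T : H →L[ℂ] H) (f : H) : f ∈ PP T f := ⟨1, by
  change aeval T (1 : ℂ[X]) f = f
  rw [map_one]
  rfl⟩

theorem PP_inv (T : H →L[ℂ] H) (f : H) {x : H} (hx : x ∈ PP T f) : T x ∈ PP T f := by
  obtain ⟨p, rfl⟩ := hx
  refine ⟨X * p, ?_⟩
  change aeval T (X * p) f = T (aeval T p f)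
  rw [map_mul, aeval_X]
  rfl

theorem sh_inv {T : H →L[ℂ] H} {M : Submodule ℂ H} (hi : ∀ x ∈ M, T x ∈ M) (z : ℂ) {x : H}
    (hx : x ∈ M) : sh T z x ∈ M := by
  rw [sh_apply]
  exact M.sub_mem (hi x hx) (M.smul_mem _ hx)

/-- the good set -/
def GG (T : H →L[ℂ] H) (f : H) : Set ℂ :=
  {μ | ∃ c > 0, ∀ (a : ℂ), ∀ g ∈ PP T f, c * ‖a‖ ≤ ‖a • f + sh T μ g‖ ∧ c * ‖g‖ ≤ ‖a • f + sh T μ g‖}

theorem GG_near {T : H →L[ℂ] H} {f : H} {μ : ℂ} {c : ℝ}
    (h : ∀ (a : ℂ), ∀ g ∈ PP T f, c * ‖a‖ ≤ ‖a • f + sh T μ g‖ ∧ c * ‖g‖ ≤ ‖a • f + sh T μ g‖)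
    {ν : ℂ} (hν : ‖ν - μ‖ < c / 2) :
    ∀ (a : ℂ), ∀ g ∈ PP T f, c / 2 * ‖a‖ ≤ ‖a • f + sh T ν g‖ ∧ c / 2 * ‖g‖ ≤ ‖a • f + sh T ν g‖ := by
  intro a g hg
  obtain ⟨h1, h2⟩ := h a g hg
  have e : a • f + sh T μ g = (a • f + sh T ν g) + (ν - μ) • g := by
    rw [sh_apply, sh_apply, sub_smul]
    abel
  have h3 : ‖a • f + sh T μ g‖ ≤ ‖a • f + sh T ν g‖ + ‖ν - μ‖ * ‖g‖ := by
    rw [e, ← norm_smul]
    exact norm_add_le _ _
  have h4 : ‖ν - μ‖ * ‖g‖ ≤ c / 2 * ‖g‖ := mul_le_mul_of_nonneg_right hν.le (norm_nonneg _)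
  constructor
  · nlinarith
  · nlinarith

theorem GG_open (T : H →L[ℂ] H) (f : H) : IsOpen (GG T f) := by
  rw [Metric.isOpen_iff]
  rintro μ ⟨c, hc, h⟩
  refine ⟨c / 2, by positivity, fun ν hν => ⟨c / 2, by positivity, ?_⟩⟩
  exact GG_near h (by rwa [mem_ball, dist_eq_norm] at hν)

theorem GG_unif {T : H →L[ℂ] H} {f : H} {L : Set ℂ} (hL : IsCompact L) (hLG : L ⊆ GG T f) :
    ∃ c > 0, ∀ μ ∈ L, ∀ (a : ℂ), ∀ g ∈ PP T f,
      c * ‖a‖ ≤ ‖a • f + sh T μ g‖ ∧ c * ‖g‖ ≤ ‖a • f + sh T μ g‖ := by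
  refine hL.induction_on (p := fun S => ∃ c > 0, ∀ μ ∈ S, ∀ (a : ℂ), ∀ g ∈ PP T f,
      c * ‖a‖ ≤ ‖a • f + sh T μ g‖ ∧ c * ‖g‖ ≤ ‖a • f + sh T μ g‖) ?_ ?_ ?_ ?_
  · exact ⟨1, one_pos, fun μ hμ => absurd hμ (notMem_empty μ)⟩
  · rintro s t hst ⟨c, hc, h⟩
    exact ⟨c, hc, fun μ hμ => h μ (hst hμ)⟩
  · rintro s t ⟨c, hc, h⟩ ⟨d, hd, h'⟩
    refine ⟨min c d, lt_min hc hd, ?_⟩
    rintro μ (hμ | hμ) a g hg
    · obtain ⟨h1, h2⟩ := h μ hμ a g hg
      exact ⟨(mul_le_mul_of_nonneg_right (min_le_left _ _) (norm_nonneg _)).trans h1,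
        (mul_le_mul_of_nonneg_right (min_le_left _ _) (norm_nonneg _)).trans h2⟩
    · obtain ⟨h1, h2⟩ := h' μ hμ a g hg
      exact ⟨(mul_le_mul_of_nonneg_right (min_le_right _ _) (norm_nonneg _)).trans h1,
        (mul_le_mul_of_nonneg_right (min_le_right _ _) (norm_nonneg _)).trans h2⟩
  · intro μ hμ
    obtain ⟨c, hc, h⟩ := hLG hμ
    refine ⟨ball μ (c / 2), mem_nhdsWithin_of_mem_nhds (ball_mem_nhds _ (by positivity)),
      c / 2, by positivity, fun ν hν => ?_⟩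
    exact GG_near h (by rwa [mem_ball, dist_eq_norm] at hν)

/-- division with remainder, analytically in the point -/
theorem exists_D (T : H →L[ℂ] H) (f : H) (p : ℂ[X]) :
    ∃ D : ℂ → H, Differentiable ℂ D ∧ (∀ z, D z ∈ PP T f) ∧
      ∀ z, sh T z (D z) + (p.eval z) • f = aeval T p f := by
  induction p using Polynomial.induction_on with
  | C a =>
    refine ⟨fun _ => 0, by fun_prop, fun _ => Submodule.zero_mem _, fun z => ?_⟩
    rw [map_zero, zero_add, eval_C, aeval_C, Algebra.algebraMap_eq_smul_one]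
    rfl
  | add p q hp hq =>
    obtain ⟨D1, h1, h2, h3⟩ := hp
    obtain ⟨D2, k1, k2, k3⟩ := hq
    refine ⟨fun z => D1 z + D2 z, h1.add k1, fun z => Submodule.add_mem _ (h2 z) (k2 z), fun z => ?_⟩
    rw [map_add, eval_add, add_smul, map_add]
    change _ = aeval T p f + aeval T q f
    rw [← h3 z, ← k3 z]
    abel
  | monomial n a hp =>
    obtain ⟨D, h1, h2, h3⟩ := hp
    refine ⟨fun z => T (D z) + (a * z ^ n) • f, ?_, ?_, ?_⟩
    · have : Differentiable ℂ (fun z => T (D z)) := T.differentiable.comp h1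
      exact this.add (by fun_prop)
    · intro z
      exact Submodule.add_mem _ (PP_inv T f (h2 z)) (Submodule.smul_mem _ _ (PP_self T f))
    · intro z
      have e1 : aeval T (C a * X ^ (n + 1)) f = T (aeval T (C a * X ^ n) f) := by
        have : C a * X ^ (n + 1) = X * (C a * X ^ n) := by ring
        rw [this, map_mul, aeval_X]
        rfl
      rw [e1, ← h3 z]
      simp only [eval_mul, eval_C, eval_pow, eval_X, sh_apply, map_add, map_sub, map_smul]
      rw [smul_sub, smul_smul, show a * z ^ n * z = a * z ^ (n + 1) by ring]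
      abel

theorem hull {T : H →L[ℂ] H} (hT : IsQ T) (hinf : ¬ FiniteDimensional ℂ H) {f : H} {L : Set ℂ}
    (hL : IsCompact L) (hLG : L ⊆ GG T f) {U : Set ℂ} (hUb : Bornology.IsBounded U)
    (hUf : frontier U ⊆ L) : U ⊆ GG T f := by
  obtain ⟨c, hc, h⟩ := GG_unif hL hLG
  intro μ hμ
  refine ⟨c, hc, fun a g hg => ?_⟩
  obtain ⟨q, hq⟩ := hg
  set p : ℂ[X] := C a + (X - C μ) * q with hp
  obtain ⟨D, hD1, hD2, hD3⟩ := exists_D T f p
  have hpT : aeval T p f = a • f + sh T μ g := by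
    rw [hp, map_add, map_mul, map_sub, aeval_X, aeval_C, aeval_C, Algebra.algebraMap_eq_smul_one,
      Algebra.algebraMap_eq_smul_one, ← hq]
    rfl
  have hpμ : p.eval μ = a := by
    rw [hp]
    simp
  have hDμ : D μ = g := by
    refine sh_inj hT hinf μ _ _ ?_
    have := hD3 μ
    rw [hpT, hpμ, add_comm] at this
    exact add_left_cancel this
  have hb : ∀ z ∈ frontier U, ‖p.eval z‖ ≤ ‖a • f + sh T μ g‖ / c ∧ ‖D z‖ ≤ ‖a • f + sh T μ g‖ / c := by
    intro z hz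
    obtain ⟨h1, h2⟩ := h z (hUf hz) (p.eval z) (D z) (hD2 z)
    rw [add_comm, hD3 z, hpT] at h1 h2
    exact ⟨by rw [le_div_iff₀' hc]; exact h1, by rw [le_div_iff₀' hc]; exact h2⟩
  have h1 : ‖p.eval μ‖ ≤ ‖a • f + sh T μ g‖ / c :=
    Complex.norm_le_of_forall_mem_frontier_norm_le hUb
      (f := fun z => p.eval z) (p.differentiable.diffContOnCl) (fun z hz => (hb z hz).1)
      (subset_closure hμ)
  have h2 : ‖D μ‖ ≤ ‖a • f + sh T μ g‖ / c :=
    Complex.norm_le_of_forall_mem_frontier_norm_le hUb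
      (f := D) hD1.diffContOnCl (fun z hz => (hb z hz).2) (subset_closure hμ)
  rw [hpμ, le_div_iff₀' hc] at h1
  rw [hDμ, le_div_iff₀' hc] at h2
  exact ⟨h1, h2⟩

/-! ## Finite codimension -/

section quot
variable {T : H →L[ℂ] H} {M : Submodule ℂ H}

/-- the map induced by `T - z` on `H / M` -/
noncomputable def ind (hi : ∀ x ∈ M, T x ∈ M) (z : ℂ) : (H ⧸ M) →ₗ[ℂ] (H ⧸ M) :=
  M.mapQ M (sh T z : H →ₗ[ℂ] H) fun _ hx => sh_inv hi z hx

theorem ind_mk (hi : ∀ x ∈ M, T x ∈ M) (z : ℂ) (x : H) : ind hi z (Submodule.Quotient.mk x) = Submodule.Quotient.mk (sh T z x) :=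
  Submodule.mapQ_apply _ _ _ _

/-- if `T - z` is onto and `M` has finite codimension then `(T - z) x ∈ M` implies `x ∈ M` -/
theorem mem_of_sh_mem (hi : ∀ x ∈ M, T x ∈ M) (z : ℂ) [FiniteDimensional ℂ (H ⧸ M)] (hs : Function.Surjective (sh T z)) {x : H}
    (hx : sh T z x ∈ M) : x ∈ M := by
  have h1 : Function.Surjective (ind hi z) := by
    intro y
    obtain ⟨y, rfl⟩ := Submodule.Quotient.mk_surjective M y
    obtain ⟨w, rfl⟩ := hs y
    exact ⟨Submodule.Quotient.mk w, ind_mk hi z w⟩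
  have h2 := LinearMap.injective_iff_surjective.2 h1
  rw [← Submodule.Quotient.mk_eq_zero]
  apply h2
  rw [ind_mk, map_zero, Submodule.Quotient.mk_eq_zero]
  exact hx

/-- if `(T - z) M = M`, `M` has finite codimension and `T - z` is injective then `T - z` is onto -/
theorem surj_of_map (hi : ∀ x ∈ M, T x ∈ M) (z : ℂ) [FiniteDimensional ℂ (H ⧸ M)] (hinj : Function.Injective (sh T z))
    (hM : ∀ y ∈ M, ∃ x ∈ M, sh T z x = y) : Function.Surjective (sh T z) := by
  have h1 : Function.Injective (ind hi z) := by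
    rw [injective_iff_map_eq_zero]
    intro y hy
    obtain ⟨y, rfl⟩ := Submodule.Quotient.mk_surjective M y
    rw [ind_mk, Submodule.Quotient.mk_eq_zero] at hy
    obtain ⟨x, hx, hxy⟩ := hM _ hy
    rw [Submodule.Quotient.mk_eq_zero, ← hinj hxy]
    exact hx
  have h2 := LinearMap.injective_iff_surjective.1 h1
  intro y
  obtain ⟨w, hw⟩ := h2 (Submodule.Quotient.mk y)
  obtain ⟨w, rfl⟩ := Submodule.Quotient.mk_surjective M w
  rw [ind_mk, Submodule.Quotient.eq] at hw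
  obtain ⟨x, -, hx⟩ := hM _ hw
  refine ⟨w - x, ?_⟩
  rw [map_sub, hx]
  abel

end quot

/-- the cyclic subspace -/
noncomputable def MM (T : H →L[ℂ] H) (f : H) : Submodule ℂ H := (PP T f).topologicalClosure

theorem MM_closed (T : H →L[ℂ] H) (f : H) : IsClosed (MM T f : Set H) :=
  Submodule.isClosed_topologicalClosure _

theorem PP_le (T : H →L[ℂ] H) (f : H) : PP T f ≤ MM T f := Submodule.le_topologicalClosure _

theorem MM_inv (T : H →L[ℂ] H) (f : H) : ∀ x ∈ MM T f, T x ∈ MM T f := by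
  intro x hx
  have h1 : (PP T f : Set H) ⊆ T ⁻¹' (MM T f : Set H) := fun y hy => PP_le T f (PP_inv T f hy)
  have h2 : closure (PP T f : Set H) ⊆ T ⁻¹' (MM T f : Set H) :=
    closure_minimal h1 ((MM_closed T f).preimage T.continuous)
  exact h2 hx

theorem MM_ne (T : H →L[ℂ] H) {f : H} (hf : f ≠ 0) : MM T f ≠ ⊥ := by
  intro h
  have : f ∈ MM T f := PP_le T f (PP_self T f)
  rw [h, Submodule.mem_bot] at this
  exact hf this

theorem surj_of_rs {T : H →L[ℂ] H} {z : ℂ} (hz : z ∈ rs T) : Function.Surjective (sh T z) := by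
  intro y
  exact ⟨rv T z y, congrArg (fun S : H →L[ℂ] H => S y) (sh_rv hz)⟩

/-- (G1) points of the resolvent set are not good -/
theorem not_GG_of_rs {T : H →L[ℂ] H} (hT : IsQ T) {f : H} (hf : f ≠ 0) {z : ℂ} (hz : z ∈ rs T) :
    z ∉ GG T f := by
  rintro ⟨c, hc, h⟩
  haveI := quot_fin hT (MM T f) (MM_closed T f) (MM_inv T f) (MM_ne T hf)
  obtain ⟨x, hx⟩ := surj_of_rs hz f
  have hxM : x ∈ MM T f := by
    refine mem_of_sh_mem (MM_inv T f) z (surj_of_rs hz) ?_
    rw [hx]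
    exact PP_le T f (PP_self T f)
  have hxc : x ∈ closure (PP T f : Set H) := hxM
  obtain ⟨g, hg, hgx⟩ := Metric.mem_closure_iff.1 hxc (c / (‖sh T z‖ + 1)) (by positivity)
  obtain ⟨h1, -⟩ := h 1 (-g) (Submodule.neg_mem _ hg)
  have h2 : (1 : ℂ) • f + sh T z (-g) = sh T z (x - g) := by
    rw [one_smul, map_neg, map_sub, hx]
    abel
  rw [h2, norm_one, mul_one] at h1
  have h3 : ‖sh T z (x - g)‖ ≤ ‖sh T z‖ * ‖x - g‖ := (sh T z).le_opNorm _
  rw [dist_eq_norm] at hgx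
  have h4 : ‖x - g‖ * (‖sh T z‖ + 1) < c := by rwa [lt_div_iff₀ (by positivity)] at hgx
  nlinarith [norm_nonneg (x - g), norm_nonneg (sh T z)]

theorem closed_range {A : H →L[ℂ] H} (hA : Function.Injective A)
    [FiniteDimensional ℂ (H ⧸ A.range)] : IsClosed (A.range : Set H) := by
  obtain ⟨W, hW⟩ := Submodule.exists_isCompl A.range
  haveI : FiniteDimensional ℂ W :=
    LinearEquiv.finiteDimensional (Submodule.quotientEquivOfIsCompl _ _ hW)
  exact ContinuousLinearMap.closed_complemented_range_of_isCompl_of_ker_eq_bot A W hW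
    (Submodule.closed_of_finiteDimensional W) (LinearMap.ker_eq_bot.2 hA)

theorem below {A : H →L[ℂ] H} (hA : Function.Injective A)
    [FiniteDimensional ℂ (H ⧸ A.range)] : ∃ δ > 0, ∀ x, δ * ‖x‖ ≤ ‖A x‖ := by
  obtain ⟨K, hK⟩ := A.antilipschitz_of_injective_of_isClosed_range hA (closed_range hA)
  refine ⟨((K : ℝ) + 1)⁻¹, by positivity, fun x => ?_⟩
  have h1 : ‖x‖ ≤ K * ‖A x‖ := by
    have := hK.le_mul_dist x 0
    rwa [dist_zero_right, map_zero, dist_zero_right] at this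
  rw [inv_mul_le_iff₀ (by positivity)]
  nlinarith [norm_nonneg (A x)]

/-- (G2) -/
theorem GG_of_codim {T : H →L[ℂ] H} (hT : IsQ T) (hinf : ¬ FiniteDimensional ℂ H) {f : H}
    (hf : f ≠ 0) {z : ℂ} (hz : z ∉ rs T) [FiniteDimensional ℂ (H ⧸ (sh T z).range)] :
    z ∈ GG T f := by
  haveI := quot_fin hT (MM T f) (MM_closed T f) (MM_inv T f) (MM_ne T hf)
  have hinj : Function.Injective (sh T z) := fun x y h => sh_inj hT hinf z x y h
  obtain ⟨δ, hδ, hb⟩ := below hinj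
  -- the closed subspace `(T - z) M`
  set N : Submodule ℂ H := (MM T f).map (sh T z : H →ₗ[ℂ] H) with hN
  have hNc : IsClosed (N : Set H) := by
    have h1 : (N : Set H) = (sh T z) '' (MM T f : Set H) := rfl
    rw [h1]
    have h2 : IsClosedEmbedding (sh T z) := by
      have h3 : AntilipschitzWith (⟨δ⁻¹, by positivity⟩ : NNReal) (sh T z) := by
        refine AddMonoidHomClass.antilipschitz_of_bound _ fun x => ?_
        change ‖x‖ ≤ δ⁻¹ * ‖sh T z x‖
        rw [le_inv_mul_iff₀ hδ]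
        exact hb x
      exact h3.isClosedEmbedding (sh T z).uniformContinuous
    exact h2.isClosedMap _ (MM_closed T f)
  have hfN : f ∉ N := by
    intro hfN
    apply hz
    have h1 : (PP T f : Set H) ⊆ N := by
      rintro _ ⟨p, rfl⟩
      obtain ⟨D, -, hD2, hD3⟩ := exists_D T f p
      change aeval T p f ∈ N
      rw [← hD3 z]
      exact N.add_mem (Submodule.mem_map_of_mem (PP_le T f (hD2 z))) (N.smul_mem _ hfN)
    have h2 : (MM T f : Set H) ⊆ N := closure_minimal h1 hNc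
    have hsurj := surj_of_map (MM_inv T f) z hinj fun y hy => by
      obtain ⟨x, hx, hxy⟩ := h2 hy
      exact ⟨x, hx, hxy⟩
    exact ContinuousLinearMap.isUnit_iff_bijective.2 ⟨hinj, hsurj⟩
  -- distance
  have hd : 0 < infDist f (N : Set H) := by
    rw [← hNc.notMem_iff_infDist_pos ⟨0, N.zero_mem⟩]
    exact hfN
  set d := infDist f (N : Set H) with hd'
  have key1 : ∀ (a : ℂ), ∀ g ∈ PP T f, d * ‖a‖ ≤ ‖a • f + sh T z g‖ := by
    intro a g hg
    by_cases ha : a = 0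
    · rw [ha, norm_zero, mul_zero]
      exact norm_nonneg _
    have h1 : -(a⁻¹ • sh T z g) ∈ N :=
      N.neg_mem (N.smul_mem _ (Submodule.mem_map_of_mem (PP_le T f hg)))
    have h2 : d ≤ dist f (-(a⁻¹ • sh T z g)) := infDist_le_dist_of_mem h1
    rw [dist_eq_norm, sub_neg_eq_add] at h2
    have h3 : a • f + sh T z g = a • (f + a⁻¹ • sh T z g) := by
      rw [smul_add, smul_smul, mul_inv_cancel₀ ha, one_smul]
    rw [h3, norm_smul, mul_comm]
    exact mul_le_mul_of_nonneg_left h2 (norm_nonneg _)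
  have key2 : ∀ (a : ℂ), ∀ g ∈ PP T f, δ * ‖g‖ ≤ (1 + ‖f‖ / d) * ‖a • f + sh T z g‖ := by
    intro a g hg
    have h1 := key1 a g hg
    have h2 : ‖a‖ ≤ ‖a • f + sh T z g‖ / d := by
      rw [le_div_iff₀' hd]
      exact h1
    have h3 : ‖sh T z g‖ ≤ ‖a • f + sh T z g‖ + ‖a‖ * ‖f‖ := by
      rw [← norm_smul]
      have := norm_sub_le (a • f + sh T z g) (a • f)
      rwa [add_sub_cancel_left] at this
    calc δ * ‖g‖ ≤ ‖sh T z g‖ := hb g
      _ ≤ ‖a • f + sh T z g‖ + ‖a‖ * ‖f‖ := h3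
      _ ≤ ‖a • f + sh T z g‖ + (‖a • f + sh T z g‖ / d) * ‖f‖ := by
          gcongr
      _ = (1 + ‖f‖ / d) * ‖a • f + sh T z g‖ := by ring
  have hC : 0 < 1 + ‖f‖ / d := by positivity
  refine ⟨min d (δ / (1 + ‖f‖ / d)), lt_min hd (by positivity), fun a g hg => ⟨?_, ?_⟩⟩
  · exact (mul_le_mul_of_nonneg_right (min_le_left _ _) (norm_nonneg _)).trans (key1 a g hg)
  · refine (mul_le_mul_of_nonneg_right (min_le_right _ _) (norm_nonneg _)).trans ?_
    rw [div_mul_eq_mul_div, div_le_iff₀' hC]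
    exact key2 a g hg

/-- (G3) -/
theorem codim_of_GG {T : H →L[ℂ] H} (hT : IsQ T) {f : H}
    (hf : f ≠ 0) {z : ℂ} (hz : z ∈ GG T f) : FiniteDimensional ℂ (H ⧸ (sh T z).range) := by
  obtain ⟨c, hc, h⟩ := hz
  haveI := quot_fin hT (MM T f) (MM_closed T f) (MM_inv T f) (MM_ne T hf)
  -- every element of `M` is `a f + (T - z) g`
  have key : ∀ m ∈ MM T f, ∃ (a : ℂ) (g : H), m = a • f + sh T z g := by
    intro m hm
    have hmc : m ∈ closure (PP T f : Set H) := hm
    obtain ⟨s, hs, hslim⟩ := mem_closure_iff_seq_limit.1 hmc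
    have hrep : ∀ n, ∃ (a : ℂ) (g : H), g ∈ PP T f ∧ a • f + sh T z g = s n := by
      intro n
      obtain ⟨p, hp⟩ := hs n
      obtain ⟨D, -, hD2, hD3⟩ := exists_D T f p
      refine ⟨p.eval z, D z, hD2 z, ?_⟩
      rw [add_comm, hD3 z]
      exact hp
    choose a g hg hag using hrep
    have hcau : CauchySeq s := hslim.cauchySeq
    have hdiff : ∀ m n, c * ‖a m - a n‖ ≤ ‖s m - s n‖ ∧ c * ‖g m - g n‖ ≤ ‖s m - s n‖ := by
      intro m n
      have h1 := h (a m - a n) (g m - g n) (Submodule.sub_mem _ (hg m) (hg n))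
      have h2 : (a m - a n) • f + sh T z (g m - g n) = s m - s n := by
        rw [← hag m, ← hag n, sub_smul, map_sub]
        abel
      rwa [h2] at h1
    have hca : CauchySeq a := by
      rw [Metric.cauchySeq_iff'] at hcau ⊢
      intro ε hε
      obtain ⟨N, hN⟩ := hcau (c * ε) (by positivity)
      refine ⟨N, fun n hn => ?_⟩
      have h1 := (hdiff n N).1
      have h2 := hN n hn
      rw [dist_eq_norm] at h2 ⊢
      exact lt_of_mul_lt_mul_left (h1.trans_lt h2) hc.le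
    have hcg : CauchySeq g := by
      rw [Metric.cauchySeq_iff'] at hcau ⊢
      intro ε hε
      obtain ⟨N, hN⟩ := hcau (c * ε) (by positivity)
      refine ⟨N, fun n hn => ?_⟩
      have h1 := (hdiff n N).2
      have h2 := hN n hn
      rw [dist_eq_norm] at h2 ⊢
      exact lt_of_mul_lt_mul_left (h1.trans_lt h2) hc.le
    obtain ⟨a0, ha0⟩ := cauchySeq_tendsto_of_complete hca
    obtain ⟨g0, hg0⟩ := cauchySeq_tendsto_of_complete hcg
    refine ⟨a0, g0, tendsto_nhds_unique hslim ?_⟩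
    have h1 : Tendsto (fun n => a n • f + sh T z (g n)) atTop (𝓝 (a0 • f + sh T z g0)) :=
      (ha0.smul_const f).add (((sh T z).continuous.tendsto g0).comp hg0)
    refine h1.congr fun n => hag n
  -- finite codimension
  obtain ⟨W, hW⟩ := Submodule.exists_isCompl (MM T f)
  haveI : FiniteDimensional ℂ W :=
    LinearEquiv.finiteDimensional (Submodule.quotientEquivOfIsCompl _ _ hW)
  set V : Submodule ℂ H := W ⊔ Submodule.span ℂ {f} with hV
  have hVR : V ⊔ (sh T z).range = ⊤ := by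
    rw [eq_top_iff]
    intro x _
    have hx : x ∈ MM T f ⊔ W := by rw [hW.sup_eq_top]; trivial
    obtain ⟨m, hm, w, hw, rfl⟩ := Submodule.mem_sup.1 hx
    obtain ⟨a, g, rfl⟩ := key m hm
    have e : a • f + sh T z g + w = (w + a • f) + sh T z g := by abel
    rw [e]
    refine Submodule.add_mem _ (Submodule.mem_sup_left ?_) (Submodule.mem_sup_right ⟨g, rfl⟩)
    exact Submodule.add_mem _ (Submodule.mem_sup_left hw)
      (Submodule.mem_sup_right (Submodule.smul_mem _ _ (Submodule.mem_span_singleton_self f)))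
  have hsurj : Function.Surjective ((sh T z).range.mkQ.comp V.subtype) := by
    intro y
    obtain ⟨y, rfl⟩ := Submodule.Quotient.mk_surjective _ y
    have hy : y ∈ V ⊔ (sh T z).range := by rw [hVR]; trivial
    obtain ⟨v, hv, r, hr, rfl⟩ := Submodule.mem_sup.1 hy
    refine ⟨⟨v, hv⟩, ?_⟩
    rw [LinearMap.comp_apply, Submodule.subtype_apply, Submodule.mkQ_apply, Submodule.Quotient.eq]
    have : v - (v + r) = -r := by abel
    rw [this]
    exact Submodule.neg_mem _ hr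
  exact Module.Finite.of_surjective _ hsurj

end Pool.Agent.X105.EC
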