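import Pool.Agent.X105.EC.Cut
import Pool.Agent.HopfPinch.AnS0

/-!
# Operators all of whose nontrivial invariant subspaces have finite codimension: the spectrum is
connected
-/

set_option autoImplicit false
set_option linter.unusedSectionVars false
set_option linter.style.haveILetI false

open Set Filter Topology Metric MeasureTheory
open scoped ContDiff

namespace Pool.Agent.X105.EC

/-- Every closed invariant subspace other than `0` and `H` has finite codimension. -/
def IsQ {H : Type*} [NormedAddCommGroup H] [InnerProductSpace ℂ H] (T : H →L[ℂ] H) : Prop :=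
  ∀ M : Submodule ℂ H, IsClosed (M : Set H) → (∀ x ∈ M, T x ∈ M) → M ≠ ⊥ → M ≠ ⊤ →
    FiniteDimensional ℂ (H ⧸ M)

variable {H : Type*} [NormedAddCommGroup H] [InnerProductSpace ℂ H] [CompleteSpace H]

theorem quot_fin {T : H →L[ℂ] H} (hT : IsQ T) (M : Submodule ℂ H) (hc : IsClosed (M : Set H))
    (hi : ∀ x ∈ M, T x ∈ M) (hM : M ≠ ⊥) : FiniteDimensional ℂ (H ⧸ M) := by
  by_cases h : M = ⊤
  · subst h
    have : Subsingleton (H ⧸ (⊤ : Submodule ℂ H)) := Submodule.Quotient.subsingleton_iff.2 rfl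
    infer_instance
  · exact hT M hc hi hM h

/-- a subspace of finite dimension and finite codimension forces finite dimension -/
theorem fin_of_quot (M : Submodule ℂ H) [FiniteDimensional ℂ M] [FiniteDimensional ℂ (H ⧸ M)] :
    FiniteDimensional ℂ H := by
  exact Module.Finite.of_submodule_quotient M

theorem no_fin_inv {T : H →L[ℂ] H} (hT : IsQ T) (hinf : ¬ FiniteDimensional ℂ H)
    (M : Submodule ℂ H) [FiniteDimensional ℂ M] (hi : ∀ x ∈ M, T x ∈ M) : M = ⊥ := by
  by_contra h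
  haveI := quot_fin hT M (Submodule.closed_of_finiteDimensional M) hi h
  exact hinf (fin_of_quot M)

theorem inj {T : H →L[ℂ] H} (hT : IsQ T) (hinf : ¬ FiniteDimensional ℂ H) (z : ℂ) (x : H)
    (hx : T x = z • x) : x = 0 := by
  have h : Submodule.span ℂ {x} = ⊥ := by
    refine no_fin_inv hT hinf _ fun y hy => ?_
    obtain ⟨c, rfl⟩ := Submodule.mem_span_singleton.1 hy
    rw [map_smul, hx]
    exact Submodule.smul_mem _ _ (Submodule.smul_mem _ _ (Submodule.mem_span_singleton_self x))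
  rw [Submodule.span_singleton_eq_bot] at h
  exact h

/-- `T - z` -/
noncomputable def sh (T : H →L[ℂ] H) (z : ℂ) : H →L[ℂ] H := T - z • (1 : H →L[ℂ] H)

theorem sh_apply (T : H →L[ℂ] H) (z : ℂ) (x : H) : sh T z x = T x - z • x := rfl

theorem sh_inj {T : H →L[ℂ] H} (hT : IsQ T) (hinf : ¬ FiniteDimensional ℂ H) (z : ℂ) (x y : H)
    (h : sh T z x = sh T z y) : x = y := by
  rw [← sub_eq_zero]
  refine inj hT hinf z _ ?_
  rw [sh_apply, sh_apply] at h
  rw [map_sub, smul_sub, sub_eq_sub_iff_sub_eq_sub]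
  exact h

/-- the set where `T - z` is invertible -/
def rs (T : H →L[ℂ] H) : Set ℂ := {z | IsUnit (sh T z)}

theorem mem_spectrum_iff (T : H →L[ℂ] H) (z : ℂ) : z ∈ spectrum ℂ T ↔ z ∉ rs T := by
  rw [spectrum.mem_iff]
  have : algebraMap ℂ (H →L[ℂ] H) z - T = -(sh T z) := by
    unfold sh
    rw [Algebra.algebraMap_eq_smul_one]
    abel
  rw [this, IsUnit.neg_iff]
  rfl

theorem rs_open (T : H →L[ℂ] H) : IsOpen (rs T) := by
  have : rs T = (spectrum ℂ T)ᶜ := by
    ext z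
    rw [mem_compl_iff, mem_spectrum_iff, not_not]
  rw [this]
  exact (spectrum.isClosed T).isOpen_compl

/-- the resolvent -/
noncomputable def rv (T : H →L[ℂ] H) (z : ℂ) : H →L[ℂ] H := Ring.inverse (sh T z)

theorem sh_cont (T : H →L[ℂ] H) : Continuous (sh T) := by
  unfold sh
  fun_prop

theorem rv_cont {T : H →L[ℂ] H} {z : ℂ} (hz : z ∈ rs T) : ContinuousAt (rv T) z := by
  obtain ⟨u, hu⟩ := hz
  have h1 : ContinuousAt Ring.inverse (sh T z) := by
    rw [← hu]
    exact NormedRing.inverse_continuousAt u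
  exact ContinuousAt.comp h1 (sh_cont T).continuousAt

theorem sh_rv {T : H →L[ℂ] H} {z : ℂ} (hz : z ∈ rs T) : sh T z * rv T z = 1 :=
  Ring.mul_inverse_cancel _ hz

theorem rv_sh {T : H →L[ℂ] H} {z : ℂ} (hz : z ∈ rs T) : rv T z * sh T z = 1 :=
  Ring.inverse_mul_cancel _ hz

theorem rv_comm {T : H →L[ℂ] H} (z : ℂ) : T * rv T z = rv T z * T := by
  have h : Commute T (sh T z) := by
    unfold sh
    exact (Commute.refl T).sub_right ((Commute.one_right T).smul_right z)
  by_cases hz : z ∈ rs T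
  · have h1 : rv T z * (sh T z * T) * rv T z = rv T z * (T * sh T z) * rv T z := by rw [h.eq]
    have h2 : rv T z * (sh T z * T) * rv T z = T * rv T z := by
      rw [← mul_assoc, rv_sh hz, one_mul]
    have h3 : rv T z * (T * sh T z) * rv T z = rv T z * T := by
      rw [mul_assoc, mul_assoc, sh_rv hz, mul_one]
    rw [← h2, h1, h3]
  · unfold rv
    rw [Ring.inverse_non_unit _ hz, mul_zero, zero_mul]

theorem rv_diff {T : H →L[ℂ] H} {z : ℂ} (hz : z ∈ rs T) : DifferentiableAt ℂ (rv T) z := by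
  obtain ⟨u, hu⟩ := hz
  have h1 : DifferentiableAt ℂ Ring.inverse (sh T z) := by
    rw [← hu]
    exact differentiableAt_inverse u.isUnit
  have h2 : DifferentiableAt ℂ (sh T) z := by
    unfold sh
    fun_prop
  exact h1.comp z h2

/-! ## The integrals -/

theorem cont_smul {X : Type*} [NormedAddCommGroup X] [NormedSpace ℂ X] {u : ℂ → ℂ}
    (hu : Continuous u) {R : ℂ → X} (hR : ∀ z ∈ tsupport u, ContinuousAt R z) :
    Continuous (fun z => u z • R z) := by
  rw [continuous_iff_continuousAt]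
  intro z
  by_cases hz : z ∈ tsupport u
  · exact hu.continuousAt.smul (hR z hz)
  · have h1 : u =ᶠ[𝓝 z] 0 := notMem_tsupport_iff_eventuallyEq.1 hz
    have h2 : (fun z => u z • R z) =ᶠ[𝓝 z] fun _ => 0 := by
      filter_upwards [h1] with w hw
      rw [hw, Pi.zero_apply, zero_smul]
    exact (continuousAt_const.congr h2.symm)

theorem integrable_smul {X : Type*} [NormedAddCommGroup X] [NormedSpace ℂ X] {u : ℂ → ℂ}
    (hu : Continuous u) (hc : HasCompactSupport u) {R : ℂ → X}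
    (hR : ∀ z ∈ tsupport u, ContinuousAt R z) : Integrable (fun z => u z • R z) :=
  (cont_smul hu hR).integrable_of_hasCompactSupport (hc.smul_right)

section
variable {T : H →L[ℂ] H} {φ : ℂ → ℝ}

/-- complexified function -/
noncomputable def cx (φ : ℂ → ℝ) : ℂ → ℂ := fun z => (φ z : ℂ)

/-- the d-bar derivative -/
noncomputable def db (φ : ℂ → ℝ) : ℂ → ℂ := Pool.Agent.HP.dbar (cx φ)

theorem cx_contDiff (h : ContDiff ℝ ∞ φ) : ContDiff ℝ ∞ (cx φ) :=
  Complex.ofRealCLM.contDiff.comp h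

theorem cx_supp (hc : HasCompactSupport φ) : HasCompactSupport (cx φ) :=
  hc.comp_left (g := Complex.ofReal) Complex.ofReal_zero

theorem db_cont (h : ContDiff ℝ ∞ φ) : Continuous (db φ) := by
  have h1 : Continuous (fderiv ℝ (cx φ)) := (cx_contDiff h).continuous_fderiv (by simp)
  unfold db Pool.Agent.HP.dbar
  exact continuous_const.mul ((h1.clm_apply continuous_const).add
    (continuous_const.mul (h1.clm_apply continuous_const)))

theorem db_supp (hc : HasCompactSupport φ) : HasCompactSupport (db φ) := by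
  have h1 : HasCompactSupport (fderiv ℝ (cx φ)) := (cx_supp hc).fderiv ℝ
  refine h1.comp_left (g := fun L : ℂ →L[ℝ] ℂ => (1 / 2 : ℂ) * (L 1 + Complex.I * L Complex.I)) ?_
  simp

theorem db_zero {z : ℂ} {c : ℝ} (h : ∀ᶠ w in 𝓝 z, φ w = c) : z ∉ tsupport (db φ) := by
  rw [notMem_tsupport_iff_eventuallyEq]
  filter_upwards [h.eventually_nhds] with w hw
  have h1 : cx φ =ᶠ[𝓝 w] fun _ => (c : ℂ) := by
    filter_upwards [hw] with x hx
    simp [cx, hx]
  unfold db Pool.Agent.HP.dbar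
  rw [h1.fderiv_eq]
  simp

/-- `E = ∫ ∂̄φ(ζ) (T - ζ)⁻¹` -/
noncomputable def EE (T : H →L[ℂ] H) (φ : ℂ → ℝ) : H →L[ℂ] H := ∫ ζ, db φ ζ • rv T ζ

/-- `B(μ) = ∫ ∂̄φ(ζ) (ζ-μ)⁻¹ (T - ζ)⁻¹` -/
noncomputable def BB (T : H →L[ℂ] H) (φ : ℂ → ℝ) (μ : ℂ) : H →L[ℂ] H :=
  ∫ ζ, db φ ζ • ((ζ - μ)⁻¹ • rv T ζ)

theorem int_E (h : ContDiff ℝ ∞ φ) (hc : HasCompactSupport φ) (hK : tsupport (db φ) ⊆ rs T) :
    Integrable (fun ζ => db φ ζ • rv T ζ) :=
  integrable_smul (db_cont h) (db_supp hc) fun _ hz => rv_cont (hK hz)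

theorem int_B (h : ContDiff ℝ ∞ φ) (hc : HasCompactSupport φ) (hK : tsupport (db φ) ⊆ rs T)
    {μ : ℂ} (hμ : μ ∉ tsupport (db φ)) : Integrable (fun ζ => db φ ζ • ((ζ - μ)⁻¹ • rv T ζ)) := by
  refine integrable_smul (db_cont h) (db_supp hc) fun z hz => ?_
  have hne : z - μ ≠ 0 := by
    rw [sub_ne_zero]
    rintro rfl
    exact hμ hz
  have h1 : ContinuousAt (fun ζ : ℂ => (ζ - μ)⁻¹) z :=
    (continuousAt_id.sub continuousAt_const).inv₀ hne
  exact h1.fun_smul (rv_cont (hK hz))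

theorem E_comm (h : ContDiff ℝ ∞ φ) (hc : HasCompactSupport φ) (hK : tsupport (db φ) ⊆ rs T) :
    T * EE T φ = EE T φ * T := by
  have h1 : T * EE T φ = ∫ ζ, T * (db φ ζ • rv T ζ) :=
    ((ContinuousLinearMap.mul ℂ (H →L[ℂ] H) T).integral_comp_comm (int_E h hc hK)).symm
  have h2 : EE T φ * T = ∫ ζ, (db φ ζ • rv T ζ) * T :=
    (((ContinuousLinearMap.mul ℂ (H →L[ℂ] H)).flip T).integral_comp_comm (int_E h hc hK)).symm
  rw [h1, h2]
  congr 1
  funext ζ
  rw [mul_smul_comm, smul_mul_assoc, rv_comm]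

theorem B_comm (h : ContDiff ℝ ∞ φ) (hc : HasCompactSupport φ) (hK : tsupport (db φ) ⊆ rs T)
    {μ : ℂ} (hμ : μ ∉ tsupport (db φ)) :
    T * BB T φ μ = BB T φ μ * T := by
  have h1 : T * BB T φ μ = ∫ ζ, T * (db φ ζ • ((ζ - μ)⁻¹ • rv T ζ)) :=
    ((ContinuousLinearMap.mul ℂ (H →L[ℂ] H) T).integral_comp_comm (int_B h hc hK hμ)).symm
  have h2 : BB T φ μ * T = ∫ ζ, (db φ ζ • ((ζ - μ)⁻¹ • rv T ζ)) * T :=
    (((ContinuousLinearMap.mul ℂ (H →L[ℂ] H)).flip T).integral_comp_comm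
      (int_B h hc hK hμ)).symm
  rw [h1, h2]
  congr 1
  funext ζ
  rw [mul_smul_comm, smul_mul_assoc, mul_smul_comm, smul_mul_assoc, rv_comm]

theorem sh_B (h : ContDiff ℝ ∞ φ) (hc : HasCompactSupport φ) (hK : tsupport (db φ) ⊆ rs T)
    {μ : ℂ} (hμ : μ ∉ tsupport (db φ)) :
    sh T μ * BB T φ μ = EE T φ - ((Real.pi * φ μ : ℝ) : ℂ) • (1 : H →L[ℂ] H) := by
  have h1 : sh T μ * BB T φ μ = ∫ ζ, sh T μ * (db φ ζ • ((ζ - μ)⁻¹ • rv T ζ)) :=
    ((ContinuousLinearMap.mul ℂ (H →L[ℂ] H) (sh T μ)).integral_comp_comm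
      (int_B h hc hK hμ)).symm
  have h2 : ∀ ζ, sh T μ * (db φ ζ • ((ζ - μ)⁻¹ • rv T ζ)) =
      (db φ ζ * (ζ - μ)⁻¹) • (1 : H →L[ℂ] H) + db φ ζ • rv T ζ := by
    intro ζ
    by_cases hζ : ζ ∈ tsupport (db φ)
    · have hne : ζ - μ ≠ 0 := by
        rw [sub_ne_zero]
        rintro rfl
        exact hμ hζ
      have h3 : sh T μ = sh T ζ + (ζ - μ) • (1 : H →L[ℂ] H) := by
        unfold sh
        rw [sub_smul]
        abel
      rw [mul_smul_comm, mul_smul_comm, h3, add_mul, sh_rv (hK hζ), smul_mul_assoc, one_mul,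
        smul_add, smul_smul, inv_mul_cancel₀ hne, one_smul, smul_add, smul_smul]
    · rw [image_eq_zero_of_notMem_tsupport hζ]
      simp
  have hI : Integrable (fun ζ => (db φ ζ * (ζ - μ)⁻¹) • (1 : H →L[ℂ] H)) := by
    have : (fun ζ => (db φ ζ * (ζ - μ)⁻¹) • (1 : H →L[ℂ] H)) =
        fun ζ => db φ ζ • ((ζ - μ)⁻¹ • (1 : H →L[ℂ] H)) := by
      funext ζ
      rw [smul_smul]
    rw [this]
    refine integrable_smul (db_cont h) (db_supp hc) fun z hz => ?_
    have hne : z - μ ≠ 0 := by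
      rw [sub_ne_zero]
      rintro rfl
      exact hμ hz
    have h1 : ContinuousAt (fun ζ : ℂ => (ζ - μ)⁻¹) z :=
      (continuousAt_id.sub continuousAt_const).inv₀ hne
    exact h1.fun_smul continuousAt_const
  rw [h1]
  simp only [h2]
  rw [integral_add hI (int_E h hc hK), integral_smul_const]
  have hp := Pool.Agent.HP.pompeiu ((cx_contDiff h).of_le (by simp)) (cx_supp hc) μ
  change (∫ ζ, db φ ζ * (ζ - μ)⁻¹) = _ at hp
  rw [hp]
  unfold EE cx
  push_cast
  rw [neg_mul, neg_smul]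
  abel

theorem B_diff (h : ContDiff ℝ ∞ φ) (hc : HasCompactSupport φ) (hK : tsupport (db φ) ⊆ rs T)
    {μ : ℂ} (hμ : μ ∉ tsupport (db φ)) : DifferentiableAt ℂ (BB T φ) μ := by
  have hKc : IsClosed (tsupport (db φ)) := isClosed_tsupport _
  obtain ⟨ε, hε, hb⟩ := Metric.isOpen_iff.1 hKc.isOpen_compl μ hμ
  set δ := ε / 2 with hδ
  have hδ0 : 0 < δ := by positivity
  have hsep : ∀ ζ ∈ tsupport (db φ), ∀ x ∈ ball μ δ, δ ≤ ‖ζ - x‖ := by
    intro ζ hζ x hx
    have h1 : ε ≤ ‖ζ - μ‖ := by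
      by_contra hlt
      push Not at hlt
      exact hb (by rw [mem_ball, dist_eq_norm]; exact hlt) hζ
    have h2 : ‖x - μ‖ < δ := by rwa [mem_ball, dist_eq_norm] at hx
    have h3 : ‖ζ - μ‖ ≤ ‖ζ - x‖ + ‖x - μ‖ := by
      have := norm_add_le (ζ - x) (x - μ)
      rwa [sub_add_sub_cancel] at this
    linarith
  have hnot : ∀ x ∈ ball μ δ, x ∉ tsupport (db φ) := by
    intro x hx hx'
    have := hsep x hx' x hx
    rw [sub_self, norm_zero] at this
    linarith
  have key := hasDerivAt_integral_of_dominated_loc_of_deriv_le (𝕜 := ℂ) (μ := volume)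
    (F := fun x ζ => db φ ζ • ((ζ - x)⁻¹ • rv T ζ))
    (F' := fun x ζ => db φ ζ • (((ζ - x) ^ 2)⁻¹ • rv T ζ)) (x₀ := μ)
    (bound := fun ζ => (δ ^ 2)⁻¹ * ‖db φ ζ • rv T ζ‖) (ball_mem_nhds μ hδ0) ?_
    (int_B h hc hK hμ) ?_ ?_ ((int_E h hc hK).norm.const_mul _) ?_
  · exact key.2.differentiableAt
  · filter_upwards [ball_mem_nhds μ hδ0] with x hx
    exact (int_B h hc hK (hnot x hx)).aestronglyMeasurable
  · refine (cont_smul (db_cont h) fun z hz => ?_).aestronglyMeasurable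
    have hne : (z - μ) ^ 2 ≠ 0 := by
      refine pow_ne_zero _ (sub_ne_zero.2 ?_)
      rintro rfl
      exact hμ hz
    have h1 : ContinuousAt (fun ζ : ℂ => ((ζ - μ) ^ 2)⁻¹) z :=
      ((continuousAt_id.sub continuousAt_const).pow 2).inv₀ hne
    exact h1.fun_smul (rv_cont (hK hz))
  · refine Eventually.of_forall fun ζ x hx => ?_
    by_cases hζ : ζ ∈ tsupport (db φ)
    · rw [smul_comm, norm_smul, norm_inv, norm_pow]
      refine mul_le_mul_of_nonneg_right ?_ (norm_nonneg _)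
      have := hsep ζ hζ x hx
      gcongr
    · rw [image_eq_zero_of_notMem_tsupport hζ]
      simp
  · refine Eventually.of_forall fun ζ x hx => ?_
    by_cases hζ : ζ ∈ tsupport (db φ)
    · have hne : ζ - x ≠ 0 := by
        intro h0
        have := hsep ζ hζ x hx
        rw [h0, norm_zero] at this
        linarith
      have h1 : HasDerivAt (fun x : ℂ => (ζ - x)⁻¹) (((ζ - x) ^ 2)⁻¹) x := by
        have h2 : HasDerivAt (fun x : ℂ => ζ - x) (-1) x := (hasDerivAt_id x).const_sub ζ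
        refine (h2.inv hne).congr_deriv ?_
        rw [neg_neg, one_div]
      exact (h1.smul_const (rv T ζ)).const_smul (db φ ζ)
    · simp only [image_eq_zero_of_notMem_tsupport hζ, zero_smul]
      exact hasDerivAt_const _ _

end

/-! ## The spectrum is connected -/

/-- a vector with an entire local resolvent is zero -/
theorem entire_zero {T : H →L[ℂ] H} (z : H) (h : ℂ → H) (hd : Differentiable ℂ h)
    (hh : ∀ μ, sh T μ (h μ) = z) : z = 0 := by
  have hlim : Tendsto h (cocompact ℂ) (𝓝 0) := by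
    rw [tendsto_zero_iff_norm_tendsto_zero]
    have hb : ∀ᶠ μ in cocompact ℂ, ‖h μ‖ ≤ ‖z‖ / (‖μ‖ - ‖T‖) := by
      have : ∀ᶠ μ in cocompact ℂ, ‖T‖ < ‖μ‖ := (tendsto_norm_cocompact_atTop).eventually_gt_atTop _
      filter_upwards [this] with μ hμ
      rw [le_div_iff₀ (by linarith)]
      have h1 : μ • h μ = T (h μ) - z := by
        rw [← hh μ, sh_apply]
        abel
      have h2 : ‖μ‖ * ‖h μ‖ ≤ ‖T‖ * ‖h μ‖ + ‖z‖ := by
        rw [← norm_smul, h1]
        exact (norm_sub_le _ _).trans (add_le_add_left (T.le_opNorm _) _)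
      nlinarith
    refine squeeze_zero' (Eventually.of_forall fun _ => norm_nonneg _) hb ?_
    refine Tendsto.div_atTop tendsto_const_nhds ?_
    exact tendsto_atTop_add_const_right _ _ tendsto_norm_cocompact_atTop
  have h0 : h 0 = 0 := hd.apply_eq_of_tendsto_cocompact 0 hlim
  rw [← hh 0, h0, map_zero]

theorem spectrum_preconnected {T : H →L[ℂ] H} (hT : IsQ T) (hinf : ¬ FiniteDimensional ℂ H)
    {A B : Set ℂ} (hA : IsClosed A) (hB : IsClosed B) (hAB : Disjoint A B)
    (hs : spectrum ℂ T = A ∪ B) : A = ∅ ∨ B = ∅ := by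
  by_contra hcon
  push Not at hcon
  obtain ⟨⟨a, ha⟩, ⟨b, hb⟩⟩ := hcon
  have hAc : IsCompact A := (spectrum.isCompact (𝕜 := ℂ) T).of_isClosed_subset hA
    (hs ▸ subset_union_left)
  obtain ⟨φ, hφ, hφc, hφA, hφB⟩ := exists_cutoff hAc hB hAB
  have hK : tsupport (db φ) ⊆ rs T := by
    intro z hz
    by_contra hz'
    have : z ∈ spectrum ℂ T := (mem_spectrum_iff T z).2 hz'
    rw [hs] at this
    rcases this with h | h
    · exact db_zero (c := 1) (hφA z h) hz
    · exact db_zero (c := 0) (hφB z h) hz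
  set E := EE T φ with hE
  set E' : H →L[ℂ] H := E - (Real.pi : ℂ) • (1 : H →L[ℂ] H) with hE'
  have hcE : T * E = E * T := E_comm hφ hφc hK
  have hcE' : T * E' = E' * T := by
    rw [hE', mul_sub, sub_mul, hcE, mul_smul_comm, smul_mul_assoc, mul_one, one_mul]
  have hEE' : E * E' = E' * E := by
    rw [hE', mul_sub, sub_mul, mul_smul_comm, smul_mul_assoc, mul_one, one_mul]
  have hBA : ∀ μ ∈ A, ∀ᶠ w in 𝓝 μ, sh T w * BB T φ w = E' := by
    intro μ hμ
    have hn : μ ∉ tsupport (db φ) := db_zero (c := 1) (hφA μ hμ)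
    filter_upwards [hφA μ hμ, (isClosed_tsupport (db φ)).isOpen_compl.mem_nhds hn] with w h1 h2
    rw [sh_B hφ hφc hK h2, h1, mul_one]
  have hBB : ∀ μ ∈ B, ∀ᶠ w in 𝓝 μ, sh T w * BB T φ w = E := by
    intro μ hμ
    have hn : μ ∉ tsupport (db φ) := db_zero (c := 0) (hφB μ hμ)
    filter_upwards [hφB μ hμ, (isClosed_tsupport (db φ)).isOpen_compl.mem_nhds hn] with w h1 h2
    rw [sh_B hφ hφc hK h2, h1, mul_zero, Complex.ofReal_zero, zero_smul, sub_zero]
  have hpi : (Real.pi : ℂ) ≠ 0 := by exact_mod_cast Real.pi_ne_zero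
  have hunit : ∀ μ ∈ spectrum ℂ T, μ ∉ tsupport (db φ) → ∀ c : ℂ, c ≠ 0 →
      sh T μ * BB T φ μ ≠ c • (1 : H →L[ℂ] H) := by
    intro μ hμ hn c hc he
    rw [mem_spectrum_iff] at hμ
    apply hμ
    have h1 : BB T φ μ * sh T μ = c • (1 : H →L[ℂ] H) := by
      rw [← he]
      unfold sh
      rw [mul_sub, sub_mul, B_comm hφ hφc hK hn, mul_smul_comm, smul_mul_assoc, mul_one, one_mul]
    refine ⟨⟨sh T μ, c⁻¹ • BB T φ μ, ?_, ?_⟩, rfl⟩
    · rw [mul_smul_comm, he, smul_smul, inv_mul_cancel₀ hc, one_smul]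
    · rw [smul_mul_assoc, h1, smul_smul, inv_mul_cancel₀ hc, one_smul]
  have hE0 : E ≠ 0 := by
    intro h0
    have h1 := (hBA a ha).self_of_nhds
    rw [hE', h0, zero_sub, ← neg_smul] at h1
    exact hunit a (hs ▸ Or.inl ha) (db_zero (c := 1) (hφA a ha)) _ (neg_ne_zero.2 hpi) h1
  have hE'0 : E' ≠ 0 := by
    intro h0
    have h1 := (hBB b hb).self_of_nhds
    have h2 : E = (Real.pi : ℂ) • (1 : H →L[ℂ] H) := by
      rw [hE', sub_eq_zero] at h0
      exact h0
    rw [h2] at h1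
    exact hunit b (hs ▸ Or.inr hb) (db_zero (c := 0) (hφB b hb)) _ hpi h1
  -- the product vanishes
  have hprod : ∀ x, E (E' x) = 0 := by
    intro x
    set z := E (E' x) with hz
    have hz' : E' (E x) = z := by
      have := congrArg (fun S : H →L[ℂ] H => S x) hEE'
      exact this.symm
    have hcov : ∀ μ, μ ∈ rs T ∨ μ ∈ A ∨ μ ∈ B := by
      intro μ
      by_cases h : μ ∈ rs T
      · exact Or.inl h
      · right
        have : μ ∈ spectrum ℂ T := (mem_spectrum_iff T μ).2 h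
        rw [hs] at this
        exact this
    have hex : ∀ μ, ∃ y, sh T μ y = z := by
      intro μ
      rcases hcov μ with h | h | h
      · refine ⟨rv T μ z, ?_⟩
        exact congrArg (fun S : H →L[ℂ] H => S z) (sh_rv h)
      · refine ⟨BB T φ μ (E x), ?_⟩
        rw [← hz']
        exact congrArg (fun S : H →L[ℂ] H => S (E x)) (hBA μ h).self_of_nhds
      · refine ⟨BB T φ μ (E' x), ?_⟩
        exact congrArg (fun S : H →L[ℂ] H => S (E' x)) (hBB μ h).self_of_nhds
    choose h hh using hex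
    refine entire_zero (T := T) z h ?_ hh
    intro μ
    rcases hcov μ with hm | hm | hm
    · have h1 : h =ᶠ[𝓝 μ] fun w => rv T w z := by
        filter_upwards [(rs_open T).mem_nhds hm] with w hw
        refine sh_inj hT hinf w _ _ ?_
        rw [hh]
        exact (congrArg (fun S : H →L[ℂ] H => S z) (sh_rv hw)).symm
      refine DifferentiableAt.congr_of_eventuallyEq ?_ h1
      exact (rv_diff hm).clm_apply (differentiableAt_const z)
    · have h1 : h =ᶠ[𝓝 μ] fun w => BB T φ w (E x) := by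
        filter_upwards [hBA μ hm] with w hw
        refine sh_inj hT hinf w _ _ ?_
        rw [hh, ← hz']
        exact (congrArg (fun S : H →L[ℂ] H => S (E x)) hw).symm
      refine DifferentiableAt.congr_of_eventuallyEq ?_ h1
      exact (B_diff hφ hφc hK (db_zero (c := 1) (hφA μ hm))).clm_apply (differentiableAt_const _)
    · have h1 : h =ᶠ[𝓝 μ] fun w => BB T φ w (E' x) := by
        filter_upwards [hBB μ hm] with w hw
        refine sh_inj hT hinf w _ _ ?_
        rw [hh]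
        exact (congrArg (fun S : H →L[ℂ] H => S (E' x)) hw).symm
      refine DifferentiableAt.congr_of_eventuallyEq ?_ h1
      exact (B_diff hφ hφc hK (db_zero (c := 0) (hφB μ hm))).clm_apply (differentiableAt_const _)
  have hprod' : ∀ x, E' (E x) = 0 := by
    intro x
    have := congrArg (fun S : H →L[ℂ] H => S x) hEE'
    rw [← hprod x]
    exact this.symm
  -- kernels
  have hker : ∀ F : H →L[ℂ] H, T * F = F * T → ∀ F' : H →L[ℂ] H, F' ≠ 0 → (∀ x, F (F' x) = 0) →
      FiniteDimensional ℂ (H ⧸ LinearMap.ker (F : H →ₗ[ℂ] H)) := by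
    intro F hF F' hF' h0
    refine quot_fin hT _ F.isClosed_ker ?_ ?_
    · intro x hx
      rw [LinearMap.mem_ker] at hx ⊢
      have h1 : F (T x) = T (F x) := congrArg (fun S : H →L[ℂ] H => S x) hF.symm
      change F (T x) = 0
      change F x = 0 at hx
      rw [h1, hx, map_zero]
    · intro hbot
      apply hF'
      ext x
      have : F' x ∈ LinearMap.ker (F : H →ₗ[ℂ] H) := h0 x
      rw [hbot, Submodule.mem_bot] at this
      rw [this]
      rfl
  haveI i1 := hker E hcE E' hE'0 hprod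
  haveI i2 := hker E' hcE' E hE0 hprod'
  apply hinf
  let f : H →ₗ[ℂ] (H ⧸ LinearMap.ker (E : H →ₗ[ℂ] H)) × (H ⧸ LinearMap.ker (E' : H →ₗ[ℂ] H)) :=
    (Submodule.mkQ _).prod (Submodule.mkQ _)
  refine FiniteDimensional.of_injective f ?_
  rw [injective_iff_map_eq_zero]
  intro x hx
  have h1 : Submodule.mkQ (LinearMap.ker (E : H →ₗ[ℂ] H)) x = 0 := congrArg Prod.fst hx
  have h2 : Submodule.mkQ (LinearMap.ker (E' : H →ₗ[ℂ] H)) x = 0 := congrArg Prod.snd hx
  rw [Submodule.mkQ_apply, Submodule.Quotient.mk_eq_zero, LinearMap.mem_ker] at h1 h2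
  change E x = 0 at h1
  change E' x = 0 at h2
  have h3 : E' x = E x - (Real.pi : ℂ) • x := rfl
  rw [h1, h2, zero_sub] at h3
  have h4 : (Real.pi : ℂ) • x = 0 := neg_eq_zero.1 h3.symm
  exact (smul_eq_zero.1 h4).resolve_left hpi

end Pool.Agent.X105.EC
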